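import Mathlib
import Pool.Agent.Helper358.Compl

/-!
Continuous functions on products `∏ j, A(Λ j)` of one-point compactifications of discrete spaces:
reduction to finitely many slots and labels.
-/

set_option autoImplicit false

namespace Pool.Agent.Y388.BK

open Topology Pool.Agent.Helper358.LOne Pool.Agent.Helper358.Compl

universe u v w

/-- labels (in a slot) and slots -/
abbrev XX (J : Type v) (Λ : J → Type w) : Type (max v w) := (Σ j, Λ j) ⊕ J

section red

variable {J : Type v} {Λ : J → Type w}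

/-- label `i` in the slot `j` -/
def lb (j : J) (i : Λ j) : XX J Λ := Sum.inl ⟨j, i⟩

lemma lb_inj {j : J} {i i' : Λ j} (h : lb j i = lb j i') : i = i' := by
  have h1 := Sum.inl_injective h
  simpa using h1

/-- reduction of an element of the product -/
noncomputable def red (Q : Finset (XX J Λ)) (ξ : ∀ j, OnePoint (Λ j)) : ∀ j, OnePoint (Λ j) :=
  open Classical in fun j => if ∃ i : Λ j, lb j i ∈ Q ∧ ξ j = (i : OnePoint (Λ j)) then ξ j
    else OnePoint.infty

lemma red_eq_coe {Q : Finset (XX J Λ)} {ξ : ∀ j, OnePoint (Λ j)} {j : J} {i : Λ j} :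
    red Q ξ j = (i : OnePoint (Λ j)) ↔ lb j i ∈ Q ∧ ξ j = (i : OnePoint (Λ j)) := by
  unfold red
  split_ifs with h
  · constructor
    · intro hx
      obtain ⟨i', hi', hx'⟩ := h
      have : i' = i := OnePoint.coe_injective (hx'.symm.trans hx)
      exact ⟨this ▸ hi', hx⟩
    · exact fun h => h.2
  · constructor
    · intro hx
      exact absurd hx (OnePoint.infty_ne_coe i)
    · rintro ⟨h1, h2⟩
      exact absurd ⟨i, h1, h2⟩ h

lemma red_eq_iff {Q : Finset (XX J Λ)} {ξ ξ' : ∀ j, OnePoint (Λ j)} :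
    red Q ξ = red Q ξ' ↔
      ∀ j, ∀ i : Λ j, lb j i ∈ Q → (ξ j = (i : OnePoint (Λ j)) ↔ ξ' j = (i : OnePoint (Λ j))) := by
  constructor
  · intro h j i hi
    have h1 : ∀ ζ : ∀ j, OnePoint (Λ j), red Q ζ j = (i : OnePoint (Λ j)) ↔
        ζ j = (i : OnePoint (Λ j)) := by
      intro ζ
      rw [red_eq_coe]
      simp [hi]
    rw [← h1 ξ, ← h1 ξ', h]
  · intro h
    funext j
    refine onePoint_ext fun i => ?_
    rw [red_eq_coe, red_eq_coe]
    constructor
    · rintro ⟨h1, h2⟩
      exact ⟨h1, (h j i h1).mp h2⟩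
    · rintro ⟨h1, h2⟩
      exact ⟨h1, (h j i h1).mpr h2⟩

lemma red_red {Q Q' : Finset (XX J Λ)} (hQ : Q ⊆ Q') (ξ : ∀ j, OnePoint (Λ j)) :
    red Q (red Q' ξ) = red Q ξ := by
  rw [red_eq_iff]
  intro j i hi
  rw [red_eq_coe]
  simp [hQ hi]

lemma red_mono {Q Q' : Finset (XX J Λ)} (hQ : Q ⊆ Q') {ξ ξ' : ∀ j, OnePoint (Λ j)}
    (h : red Q' ξ = red Q' ξ') : red Q ξ = red Q ξ' := by
  rw [← red_red hQ ξ, ← red_red hQ ξ', h]

lemma finite_range_red (Q : Finset (XX J Λ)) : (Set.range (red Q)).Finite := by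
  classical
  let ψ : (∀ j, OnePoint (Λ j)) → Finset (XX J Λ) := fun w =>
    Q.filter fun x => ∃ (j : J) (i : Λ j), x = lb j i ∧ w j = (i : OnePoint (Λ j))
  refine Set.Finite.of_finite_image (f := ψ) ?_ ?_
  · refine (Q.powerset.finite_toSet).subset ?_
    rintro _ ⟨w, _, rfl⟩
    rw [Finset.mem_coe, Finset.mem_powerset]
    exact Finset.filter_subset _ _
  · rintro _ ⟨ξ, rfl⟩ _ ⟨ξ', rfl⟩ h
    have h1 : red Q (red Q ξ) = red Q (red Q ξ') := by
      rw [red_eq_iff]
      intro j i hi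
      have h2 : ∀ w : ∀ j, OnePoint (Λ j), lb j i ∈ ψ w ↔ w j = (i : OnePoint (Λ j)) := by
        intro w
        simp only [ψ, Finset.mem_filter]
        constructor
        · rintro ⟨_, j', i', h3, h4⟩
          have h5 : (⟨j, i⟩ : Σ j, Λ j) = ⟨j', i'⟩ := Sum.inl_injective h3
          cases h5
          exact h4
        · exact fun h3 => ⟨hi, j, i, rfl, h3⟩
      rw [← h2, ← h2]
      have h6 : ψ (red Q ξ) = ψ (red Q ξ') := h
      rw [h6]
    rwa [red_red (Finset.Subset.refl _), red_red (Finset.Subset.refl _)] at h1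

/-- The finite set of patterns. -/
noncomputable def Pat (Q : Finset (XX J Λ)) : Finset (∀ j, OnePoint (Λ j)) :=
  (finite_range_red Q).toFinset

lemma red_mem (Q : Finset (XX J Λ)) (ξ : ∀ j, OnePoint (Λ j)) : red Q ξ ∈ Pat Q :=
  (finite_range_red Q).mem_toFinset.mpr ⟨ξ, rfl⟩

lemma mem_Pat {Q : Finset (XX J Λ)} {w : ∀ j, OnePoint (Λ j)} : w ∈ Pat Q ↔ red Q w = w := by
  constructor
  · intro h
    obtain ⟨ξ, rfl⟩ := (finite_range_red Q).mem_toFinset.mp h
    exact red_red (Finset.Subset.refl _) ξ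
  · intro h
    rw [← h]
    exact red_mem Q w

lemma mem_of_mem_Pat {Q : Finset (XX J Λ)} {w : ∀ j, OnePoint (Λ j)} (hw : w ∈ Pat Q) {j : J}
    {i : Λ j} (h : w j = (i : OnePoint (Λ j))) : lb j i ∈ Q := by
  rw [mem_Pat] at hw
  rw [← hw, red_eq_coe] at h
  exact h.1

variable [∀ j, TopologicalSpace (Λ j)] [∀ j, DiscreteTopology (Λ j)]

lemma continuous_red (Q : Finset (XX J Λ)) : Continuous (red Q) := by
  classical
  refine continuous_pi fun j => ?_
  have hfin : {i : Λ j | lb j i ∈ Q}.Finite :=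
    Set.Finite.preimage (fun a _ b _ h => lb_inj h) Q.finite_toSet
  have hcl : IsClopen {x : OnePoint (Λ j) | ∃ i : Λ j, lb j i ∈ Q ∧ x = (i : OnePoint (Λ j))} := by
    have : {x : OnePoint (Λ j) | ∃ i : Λ j, lb j i ∈ Q ∧ x = (i : OnePoint (Λ j))} =
        ⋃ i ∈ {i : Λ j | lb j i ∈ Q}, {x : OnePoint (Λ j) | x = (i : OnePoint (Λ j))} := by
      ext x; simp
    rw [this]
    exact hfin.isClopen_biUnion fun i _ => isClopen_coe i
  have h1 : Continuous fun x : OnePoint (Λ j) =>
      if ∃ i : Λ j, lb j i ∈ Q ∧ x = (i : OnePoint (Λ j)) then x else OnePoint.infty := by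
    refine Continuous.if ?_ continuous_id continuous_const
    intro x hx
    rw [hcl.frontier_eq] at hx
    exact absurd hx (Set.notMem_empty x)
  exact h1.comp (continuous_apply j)

lemma isClopen_red (Q : Finset (XX J Λ)) (w : ∀ j, OnePoint (Λ j)) :
    IsClopen {ξ | red Q ξ = w} := by
  constructor
  · exact isClosed_eq (continuous_red Q) continuous_const
  · rw [← isClosed_compl_iff]
    have : {ξ | red Q ξ = w}ᶜ = ⋃ v ∈ {v | v ∈ Pat Q ∧ v ≠ w}, {ξ | red Q ξ = v} := by
      ext ξ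
      simp only [Set.mem_compl_iff, Set.mem_ofPred_eq, Set.mem_iUnion, exists_prop,
        exists_eq_right']
      exact ⟨fun h => ⟨red_mem Q ξ, h⟩, fun h => h.2⟩
    rw [this]
    refine Set.Finite.isClosed_biUnion ?_ fun v _ =>
      isClosed_eq (continuous_red Q) continuous_const
    exact Set.Finite.subset (Pat Q).finite_toSet fun v hv => hv.1

open Classical in
/-- indicator of a pattern -/
noncomputable def ind (Q : Finset (XX J Λ)) (w : ∀ j, OnePoint (Λ j)) :
    C((∀ j, OnePoint (Λ j)), ℝ) where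
  toFun ξ := if red Q ξ = w then 1 else 0
  continuous_toFun := by
    refine continuous_const.if ?_ continuous_const
    intro x hx
    rw [(isClopen_red Q w).frontier_eq] at hx
    exact absurd hx (Set.notMem_empty x)

open Classical in
lemma ind_apply (Q : Finset (XX J Λ)) (w ξ : ∀ j, OnePoint (Λ j)) :
    ind Q w ξ = if red Q ξ = w then 1 else 0 := rfl

lemma sum_ind (Q : Finset (XX J Λ)) (a : (∀ j, OnePoint (Λ j)) → ℝ) (ξ : ∀ j, OnePoint (Λ j)) :
    (∑ w ∈ Pat Q, a w • ind Q w) ξ = a (red Q ξ) := by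
  classical
  rw [ContinuousMap.sum_apply, Finset.sum_eq_single (red Q ξ)]
  · rw [ContinuousMap.smul_apply, ind_apply, if_pos rfl, smul_eq_mul, mul_one]
  · intro w _ hw
    rw [ContinuousMap.smul_apply, ind_apply, if_neg hw.symm, smul_zero]
  · intro h
    exact absurd (red_mem Q ξ) h

open Classical in
lemma ind_eq_sum {Q Q' : Finset (XX J Λ)} (hQ : Q ⊆ Q') (v : ∀ j, OnePoint (Λ j)) :
    ind Q v = ∑ w ∈ Pat Q' with red Q w = v, ind Q' w := by
  ext ξ
  rw [Finset.sum_filter]
  have h1 : ∑ w ∈ Pat Q', (if red Q w = v then ind Q' w else 0) =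
      ∑ w ∈ Pat Q', (if red Q w = v then (1 : ℝ) else 0) • ind Q' w := by
    refine Finset.sum_congr rfl fun w _ => ?_
    split_ifs
    · rw [one_smul]
    · rw [zero_smul]
  rw [h1, sum_ind, ind_apply, red_red hQ]

/-- Up to `ε` a continuous function on the product depends on finitely many labels. -/
lemma exists_suppA (g : C((∀ j, OnePoint (Λ j)), ℝ)) {ε : ℝ} (hε : 0 < ε) :
    ∃ Q : Finset (XX J Λ), ∀ ξ ξ', red Q ξ = red Q ξ' → |g ξ - g ξ'| ≤ ε := by
  classical
  by_contra hcon
  push Not at hcon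
  let t : Finset (XX J Λ) → Set ((∀ j, OnePoint (Λ j)) × (∀ j, OnePoint (Λ j))) := fun q =>
    {p | red q p.1 = red q p.2 ∧ ε ≤ |g p.1 - g p.2|}
  have hcl : ∀ q, IsClosed (t q) := by
    intro q
    refine IsClosed.inter ?_ ?_
    · exact isClosed_eq ((continuous_red q).comp continuous_fst)
        ((continuous_red q).comp continuous_snd)
    · exact isClosed_le continuous_const
        ((g.continuous.comp continuous_fst).sub (g.continuous.comp continuous_snd)).abs
  have hne : (⋂ q, t q).Nonempty := by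
    refine IsCompact.nonempty_iInter_of_directed_nonempty_isCompact_isClosed t ?_ ?_
      (fun q => (hcl q).isCompact) hcl
    · intro q q'
      refine ⟨q ∪ q', ?_, ?_⟩
      · rintro p ⟨h1, h2⟩
        exact ⟨red_mono Finset.subset_union_left h1, h2⟩
      · rintro p ⟨h1, h2⟩
        exact ⟨red_mono Finset.subset_union_right h1, h2⟩
    · intro q
      obtain ⟨z, z', h1, h2⟩ := hcon q
      exact ⟨(z, z'), h1, h2.le⟩
  obtain ⟨p, hp⟩ := hne
  rw [Set.mem_iInter] at hp
  have heq : p.1 = p.2 := by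
    funext j
    refine onePoint_ext fun i => ?_
    exact red_eq_iff.mp (hp {lb j i}).1 j i (Finset.mem_singleton_self _)
  have := (hp ∅).2
  rw [heq, sub_self, abs_zero] at this
  linarith

end red

end Pool.Agent.Y388.BK
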