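import Mathlib
import Pool.Agent.Y388.BK.Red

/-!
Normal forms of uncountable families of continuous functions on products of one-point
compactifications of discrete spaces, and greedy choices.
-/

set_option autoImplicit false

namespace Pool.Agent.Y388.BK

open Topology Pool.Agent.Helper358.LOne Pool.Agent.Helper358.Compl

universe u v w z

/-- Maximal root. -/
lemma exists_root' {Γ : Type u} {X : Type v} {p : ℕ} (e : Γ → Fin p → X) {I : Set Γ}
    (hI : ¬ I.Countable) :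
    ∃ (J : Finset (Fin p)) (g : Fin p → X), ¬ {i ∈ I | ∀ a ∈ J, e i a = g a}.Countable ∧
      ∀ a ∉ J, ∀ x, {i ∈ I | (∀ b ∈ J, e i b = g b) ∧ e i a = x}.Countable := by
  classical
  let 𝒥 : Finset (Finset (Fin p)) := Finset.univ.filter fun J =>
    ∃ g : Fin p → X, ¬ {i ∈ I | ∀ a ∈ J, e i a = g a}.Countable
  have hIne : I.Nonempty := by
    by_contra h
    rw [Set.not_nonempty_iff_eq_empty] at h
    exact hI (h ▸ Set.countable_empty)
  obtain ⟨i0, _⟩ := hIne
  have hne : 𝒥.Nonempty := by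
    refine ⟨∅, ?_⟩
    simp only [𝒥, Finset.mem_filter, Finset.mem_univ, true_and]
    refine ⟨e i0, ?_⟩
    simpa using hI
  obtain ⟨J, hJ⟩ := 𝒥.exists_maximal hne
  have hJm := hJ.prop
  simp only [𝒥, Finset.mem_filter, Finset.mem_univ, true_and] at hJm
  obtain ⟨g, hg⟩ := hJm
  refine ⟨J, g, hg, fun a ha x => ?_⟩
  by_contra hcon
  have hmem : insert a J ∈ 𝒥 := by
    simp only [𝒥, Finset.mem_filter, Finset.mem_univ, true_and]
    refine ⟨Function.update g a x, ?_⟩
    intro hc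
    apply hcon
    refine hc.mono ?_
    rintro i ⟨hi, h1, h2⟩
    refine ⟨hi, fun b hb => ?_⟩
    rcases Finset.mem_insert.mp hb with rfl | hb
    · simp [h2]
    · have hba : b ≠ a := fun h => ha (h ▸ hb)
      rw [Function.update_of_ne hba]
      exact h1 b hb
  have hle : J ≤ insert a J := Finset.subset_insert a J
  have := hJ.le_of_ge hmem hle
  exact ha (this (Finset.mem_insert_self a J))

section nf

variable {Γ : Type u} {J : Type v} {Λ : J → Type w}
variable [∀ j, TopologicalSpace (Λ j)] [∀ j, DiscreteTopology (Λ j)]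

/-- Normal form of a family of functions on the product. -/
structure NFA (g : Γ → C((∀ j, OnePoint (Λ j)), ℝ)) (ε : ℝ) where
  /-- root -/
  R : Finset (XX J Λ)
  /-- subfamily -/
  I : Set Γ
  /-- new labels and slots -/
  P : Γ → Finset (XX J Λ)
  supp : ∀ γ ∈ I, ∀ Q' : Finset (XX J Λ), (∀ j, ∀ i : Λ j, (lb j i ∈ R ∨ lb j i ∈ P γ) →
    lb j i ∈ Q') → ∀ ξ ξ', red Q' ξ = red Q' ξ' → |g γ ξ - g γ ξ'| ≤ ε
  slot : ∀ γ ∈ I, ∀ j, ∀ i : Λ j, (lb j i ∈ R ∨ lb j i ∈ P γ) →
    ((Sum.inr j : XX J Λ) ∈ R ∨ (Sum.inr j : XX J Λ) ∈ P γ)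
  free : ∀ Q : Set Γ, Q.Countable → ∀ Q' : Set (XX J Λ), Q'.Countable →
    ∃ γ ∈ I, γ ∉ Q ∧ ∀ x ∈ P γ, x ∉ Q'

lemma exists_NFA [Uncountable Γ] (g : Γ → C((∀ j, OnePoint (Λ j)), ℝ)) {ε : ℝ} (hε : 0 < ε) :
    Nonempty (NFA g ε) := by
  classical
  choose Q0 hQ using fun i => exists_suppA (g i) hε
  let E0 : Γ → Finset (XX J Λ) := fun γ =>
    (Q0 γ) ∪ (Q0 γ).biUnion fun x => Sum.elim (fun y => {Sum.inr y.1}) (fun _ => ∅) x
  have hE0 : ∀ γ, Q0 γ ⊆ E0 γ := fun γ => Finset.subset_union_left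
  have hE0s : ∀ γ j, ∀ i : Λ j, lb j i ∈ E0 γ → (Sum.inr j : XX J Λ) ∈ E0 γ := by
    intro γ j i h
    have h1 : lb j i ∈ Q0 γ := by
      rcases Finset.mem_union.mp h with h | h
      · exact h
      · obtain ⟨x, hx, hxi⟩ := Finset.mem_biUnion.mp h
        rcases x with x | x
        · simp [lb] at hxi
        · simp at hxi
    refine Finset.mem_union_right _ (Finset.mem_biUnion.mpr ⟨lb j i, h1, ?_⟩)
    simp [lb]
  have h0 : ¬ (Set.univ : Set Γ).Countable := by
    rw [Set.countable_univ_iff]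
    exact not_countable
  obtain ⟨p, hI1⟩ := pigeonN h0 (fun i => (E0 i).card)
  set I1 : Set Γ := {i ∈ Set.univ | (E0 i).card = p} with hI1def
  have hex : ∀ i, ∃ e : Fin p → XX J Λ, i ∈ I1 → (∀ γ, γ ∈ E0 i ↔ ∃ a, e a = γ) := by
    intro i
    by_cases hi : i ∈ I1
    · let E := (E0 i).equivFinOfCardEq hi.2
      refine ⟨fun a => (E.symm a).1, fun _ γ => ⟨fun hγ => ?_, ?_⟩⟩
      · exact ⟨E ⟨γ, hγ⟩, by simp⟩
      · rintro ⟨a, rfl⟩
        exact (E.symm a).2
    · by_cases hp : Nonempty (Fin p → XX J Λ)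
      · exact ⟨hp.some, fun h => absurd h hi⟩
      · exfalso
        have hne : I1.Nonempty := by
          by_contra h
          rw [Set.not_nonempty_iff_eq_empty] at h
          exact hI1 (h ▸ Set.countable_empty)
        obtain ⟨i', hi'⟩ := hne
        let E := (E0 i').equivFinOfCardEq hi'.2
        exact hp ⟨fun a => (E.symm a).1⟩
  choose e he using hex
  obtain ⟨A, r, hJ1, hJ2⟩ := exists_root' e hI1
  have hcov : ∀ i ∈ I1, (∀ a ∈ A, e i a = r a) → ∀ x, x ∈ E0 i ↔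
      (x ∈ A.image r ∨ x ∈ Aᶜ.image (e i)) := by
    intro i hi1 hi2 x
    rw [he i hi1]
    constructor
    · rintro ⟨a, rfl⟩
      by_cases ha : a ∈ A
      · left
        rw [hi2 a ha]
        exact Finset.mem_image_of_mem _ ha
      · right
        exact Finset.mem_image_of_mem _ (Finset.mem_compl.mpr ha)
    · rintro (h | h)
      · obtain ⟨a, ha, rfl⟩ := Finset.mem_image.mp h
        exact ⟨a, hi2 a ha⟩
      · obtain ⟨a, ha, rfl⟩ := Finset.mem_image.mp h
        exact ⟨a, rfl⟩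
  refine ⟨{ R := A.image r
            I := {i ∈ I1 | ∀ a ∈ A, e i a = r a}
            P := fun i => Aᶜ.image (e i)
            supp := fun i hi Q' hQ' ξ ξ' h => ?_
            slot := fun i hi j i' h => ?_
            free := fun Q hQ Q' hQ' => ?_ }⟩
  · refine hQ i ξ ξ' ?_
    rw [red_eq_iff] at h ⊢
    intro j i' hi'
    exact h j i' (hQ' j i' ((hcov i hi.1 hi.2 _).mp (hE0 i hi')))
  · have h1 := (hcov i hi.1 hi.2 _).mpr h
    exact (hcov i hi.1 hi.2 _).mp (hE0s i j i' h1)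
  · have hcount : {i ∈ {i ∈ I1 | ∀ a ∈ A, e i a = r a} | i ∈ Q ∨ ∃ a ∉ A, e i a ∈ Q'}.Countable := by
      have hsub : {i ∈ {i ∈ I1 | ∀ a ∈ A, e i a = r a} | i ∈ Q ∨ ∃ a ∉ A, e i a ∈ Q'} ⊆
          Q ∪ ⋃ a ∈ {a | a ∉ A}, ⋃ x ∈ Q',
            {i ∈ I1 | (∀ b ∈ A, e i b = r b) ∧ e i a = x} := by
        rintro i ⟨⟨hi1, hi2⟩, hi3 | ⟨a, ha, haQ⟩⟩
        · exact Or.inl hi3
        · refine Or.inr ?_
          exact Set.mem_iUnion₂.mpr ⟨a, ha, Set.mem_iUnion₂.mpr ⟨e i a, haQ, hi1, hi2, rfl⟩⟩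
      refine Set.Countable.mono hsub ?_
      refine hQ.union ?_
      refine (Set.to_countable _).biUnion fun a ha => ?_
      exact hQ'.biUnion fun x _ => hJ2 a ha x
    by_contra hcon
    push Not at hcon
    apply hJ1
    refine hcount.mono ?_
    intro i hi
    refine ⟨hi, ?_⟩
    by_cases hQi : i ∈ Q
    · exact Or.inl hQi
    · obtain ⟨x, hx, hxQ⟩ := hcon i hi hQi
      obtain ⟨a, ha, rfl⟩ := Finset.mem_image.mp hx
      exact Or.inr ⟨a, Finset.mem_compl.mp ha, hxQ⟩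

end nf

lemma greedyX {Γ : Type u} {X : Type v} {ι : Type w} (I : ι → Set Γ) (P : ι → Γ → Finset X)
    (hfree : ∀ a, ∀ Q : Set Γ, Q.Countable → ∀ Q' : Set X, Q'.Countable →
      ∃ γ ∈ I a, γ ∉ Q ∧ ∀ i ∈ P a γ, i ∉ Q')
    {Q0 : Set Γ} (hQ0 : Q0.Countable) {Q1 : Set X} (hQ1 : Q1.Countable) (E : Finset ι) :
    ∃ s : ι → Γ, (∀ a ∈ E, s a ∈ I a ∧ s a ∉ Q0 ∧ ∀ i ∈ P a (s a), i ∉ Q1) ∧
      (∀ a ∈ E, ∀ b ∈ E, a ≠ b → s a ≠ s b ∧ Disjoint (P a (s a)) (P b (s b))) := by
  classical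
  induction E using Finset.induction_on with
  | empty =>
    exact ⟨fun a => (hfree a ∅ Set.countable_empty ∅ Set.countable_empty).choose, by simp, by simp⟩
  | insert a E ha ih =>
    obtain ⟨s, hs1, hs2⟩ := ih
    let W : Finset Γ := E.image s
    let W' : Finset X := E.biUnion fun b => P b (s b)
    obtain ⟨γ, hγI, hγQ, hγP⟩ := hfree a (Q0 ∪ (W : Set Γ)) (hQ0.union W.countable_toSet)
      (Q1 ∪ (W' : Set X)) (hQ1.union W'.countable_toSet)
    have hne : ∀ b ∈ E, b ≠ a := fun b hb h => ha (h ▸ hb)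
    have hold : ∀ b ∈ E, Function.update s a γ b = s b := fun b hb =>
      Function.update_of_ne (hne b hb) _ _
    have hW : ∀ b ∈ E, γ ≠ s b ∧ Disjoint (P a γ) (P b (s b)) := by
      intro b hb
      constructor
      · rintro rfl
        refine hγQ (Or.inr ?_)
        exact Finset.mem_coe.mpr (Finset.mem_image_of_mem _ hb)
      · rw [Finset.disjoint_left]
        intro i hi hi'
        refine hγP i hi (Or.inr ?_)
        exact Finset.mem_coe.mpr (Finset.mem_biUnion.mpr ⟨b, hb, hi'⟩)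
    refine ⟨Function.update s a γ, ?_, ?_⟩
    · intro b hb
      rcases Finset.mem_insert.mp hb with rfl | hb
      · rw [Function.update_self]
        exact ⟨hγI, fun h => hγQ (Or.inl h), fun i hi h => hγP i hi (Or.inl h)⟩
      · rw [hold b hb]
        exact hs1 b hb
    · intro b hb c hc hbc
      rcases Finset.mem_insert.mp hb with hb' | hb' <;>
        rcases Finset.mem_insert.mp hc with hc' | hc'
      · exact absurd (hb'.trans hc'.symm) hbc
      · rw [hb', Function.update_self, hold c hc']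
        exact hW c hc'
      · rw [hc', Function.update_self, hold b hb']
        exact ⟨(hW b hb').1.symm, (hW b hb').2.symm⟩
      · rw [hold b hb', hold c hc']
        exact hs2 b hb' c hc' hbc

end Pool.Agent.Y388.BK
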