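import Mathlib
import Pool.Agent.Y388.BK.Nf

/-!
For an uncountable `Γ`, the space `C(B(Γ))` is not isomorphic to a complemented subspace of
`C(∏ j, A(Λ j))`, for any family of discrete spaces `Λ j`.
-/

set_option autoImplicit false

namespace Pool.Agent.Y388.BK

open Topology Pool.Agent.Helper358.LOne Pool.Agent.Helper358.Compl

universe u v w z

section main

variable {Γ : Type u} {J : Type v} {Λ : J → Type w}
variable [∀ j, TopologicalSpace (Λ j)] [∀ j, DiscreteTopology (Λ j)]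

/-- total variation of the patterns -/
noncomputable def Np (T : C((∀ j, OnePoint (Λ j)), ℝ) →L[ℝ] C(Ball Γ, ℝ)) (Q : Finset (XX J Λ))
    (x : Ball Γ) : ℝ := ∑ w ∈ Pat Q, |T (ind Q w) x|

lemma Np_le (T : C((∀ j, OnePoint (Λ j)), ℝ) →L[ℝ] C(Ball Γ, ℝ)) (Q : Finset (XX J Λ))
    (x : Ball Γ) : Np T Q x ≤ ‖T‖ := by
  have := sum_abs_le_norm T (Pat Q) (ind Q) (c := 1) (fun s hs => by
    refine (ContinuousMap.norm_le _ zero_le_one).mpr fun ξ => ?_
    rw [sum_ind, Real.norm_eq_abs]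
    exact hs _) x
  rwa [mul_one] at this

open Classical in
lemma T_ind (T : C((∀ j, OnePoint (Λ j)), ℝ) →L[ℝ] C(Ball Γ, ℝ)) {Q Q' : Finset (XX J Λ)}
    (hQ : Q ⊆ Q') (v : ∀ j, OnePoint (Λ j)) (x : Ball Γ) :
    T (ind Q v) x = ∑ w ∈ Pat Q' with red Q w = v, T (ind Q' w) x := by
  rw [ind_eq_sum hQ, map_sum, ContinuousMap.sum_apply]

lemma Np_mono (T : C((∀ j, OnePoint (Λ j)), ℝ) →L[ℝ] C(Ball Γ, ℝ)) {Q Q' : Finset (XX J Λ)}
    (hQ : Q ⊆ Q') (x : Ball Γ) : Np T Q x ≤ Np T Q' x := by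
  classical
  unfold Np
  rw [← Finset.sum_fiberwise_of_maps_to (s := Pat Q') (t := Pat Q)
    (g := fun w => red Q w) (fun w _ => red_mem Q w)]
  refine Finset.sum_le_sum fun v _ => ?_
  rw [T_ind T hQ]
  exact Finset.abs_sum_le_sum_abs _ _

lemma exists_near_max (T : C((∀ j, OnePoint (Λ j)), ℝ) →L[ℝ] C(Ball Γ, ℝ)) {δ : ℝ} (hδ : 0 < δ) :
    ∃ (Q : Finset (XX J Λ)) (x₀ : Ball Γ) (F : Finset Γ), (∀ γ ∉ F, x₀.1 γ = 0) ∧
      ∑ γ ∈ F, |x₀.1 γ| < 1 ∧ ∀ Q' x, Np T Q' x ≤ Np T Q x₀ + δ := by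
  let V : Set ℝ := {r | ∃ Q x, Np T Q x = r}
  have hVne : V.Nonempty := ⟨_, ∅, ⟨fun _ => 0, fun F => by simp⟩, rfl⟩
  have hVb : BddAbove V := ⟨‖T‖, by
    rintro r ⟨Q, x, rfl⟩
    exact Np_le T Q x⟩
  obtain ⟨r, ⟨Q, x, rfl⟩, hr⟩ := exists_lt_of_lt_csSup hVne (sub_lt_self (sSup V) hδ)
  let h : C(Ball Γ, ℝ) := ⟨fun x => Np T Q x, by
    unfold Np
    exact continuous_finsetSum _ fun w _ => (T (ind Q w)).continuous.abs⟩
  obtain ⟨x₀, F, h1, h2, h3⟩ := exists_inner h x (c := sSup V - δ) hr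
  refine ⟨Q, x₀, F, h1, h2, fun Q' x' => ?_⟩
  have h4 : Np T Q' x' ≤ sSup V := le_csSup hVb ⟨Q', x', rfl⟩
  have h5 : sSup V - δ < Np T Q x₀ := h3
  linarith

lemma key (T : C((∀ j, OnePoint (Λ j)), ℝ) →L[ℝ] C(Ball Γ, ℝ)) {Q₀ Q : Finset (XX J Λ)}
    (hQ : Q₀ ⊆ Q) {x₀ x : Ball Γ} {δ θ c ρ : ℝ} (f : C((∀ j, OnePoint (Λ j)), ℝ))
    (hx : ∀ v ∈ Pat Q₀, T (ind Q₀ v) x = T (ind Q₀ v) x₀)
    (hf : ∀ ξ, |f ξ - f (red Q ξ)| ≤ θ) (hTf : T f x = ρ)
    (U : (∀ j, OnePoint (Λ j)) → ℝ) (hU : ∀ w ∈ Pat Q, |f w| ≤ U (red Q₀ w))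
    (hUc : ∀ v ∈ Pat Q₀, U v ≤ c) (hc : 0 ≤ c)
    (hN : Np T Q x ≤ Np T Q₀ x₀ + δ) :
    ρ - ‖T‖ * θ - c * δ ≤ ∑ v ∈ Pat Q₀, U v * |T (ind Q₀ v) x₀| := by
  classical
  have hθ : 0 ≤ θ := (abs_nonneg _).trans (hf (fun _ => OnePoint.infty))
  let f' : C((∀ j, OnePoint (Λ j)), ℝ) := ∑ w ∈ Pat Q, f w • ind Q w
  have h1 : ‖f - f'‖ ≤ θ := by
    refine (ContinuousMap.norm_le _ hθ).mpr fun ξ => ?_
    rw [ContinuousMap.sub_apply, Real.norm_eq_abs]
    simp only [f']
    rw [sum_ind Q (fun w => f w)]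
    exact hf ξ
  have h2 : |T (f - f') x| ≤ ‖T‖ * θ := abs_apply_le_norm T _ x h1
  have h3 : T f' x = ∑ w ∈ Pat Q, f w * T (ind Q w) x := by
    simp only [f']
    rw [map_sum, ContinuousMap.sum_apply]
    refine Finset.sum_congr rfl fun w _ => ?_
    rw [map_smul, ContinuousMap.smul_apply, smul_eq_mul]
  have h4 : T f' x ≤ ∑ w ∈ Pat Q, U (red Q₀ w) * |T (ind Q w) x| := by
    rw [h3]
    refine Finset.sum_le_sum fun w hw => ?_
    calc f w * T (ind Q w) x ≤ |f w * T (ind Q w) x| := le_abs_self _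
      _ = |f w| * |T (ind Q w) x| := abs_mul _ _
      _ ≤ U (red Q₀ w) * |T (ind Q w) x| :=
        mul_le_mul_of_nonneg_right (hU w hw) (abs_nonneg _)
  have h5 : ∑ w ∈ Pat Q, U (red Q₀ w) * |T (ind Q w) x| =
      ∑ v ∈ Pat Q₀, U v * ∑ w ∈ Pat Q with red Q₀ w = v, |T (ind Q w) x| := by
    rw [← Finset.sum_fiberwise_of_maps_to (t := Pat Q₀) (fun w _ => red_mem Q₀ w)]
    refine Finset.sum_congr rfl fun v _ => ?_
    rw [Finset.mul_sum]
    refine Finset.sum_congr rfl fun w hw => ?_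
    rw [(Finset.mem_filter.mp hw).2]
  have h6 : ∑ v ∈ Pat Q₀, (∑ w ∈ Pat Q with red Q₀ w = v, |T (ind Q w) x|) =
      Np T Q x := by
    unfold Np
    exact Finset.sum_fiberwise_of_maps_to (fun w _ => red_mem Q₀ w) _
  have h7 : ∀ v ∈ Pat Q₀, |T (ind Q₀ v) x₀| ≤
      ∑ w ∈ Pat Q with red Q₀ w = v, |T (ind Q w) x| := by
    intro v hv
    rw [← hx v hv, T_ind T hQ]
    exact Finset.abs_sum_le_sum_abs _ _
  have h8 : ∑ v ∈ Pat Q₀, U v * (∑ w ∈ Pat Q with red Q₀ w = v, |T (ind Q w) x|) ≤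
      ∑ v ∈ Pat Q₀, U v * |T (ind Q₀ v) x₀| + c * δ := by
    have h9 : ∑ v ∈ Pat Q₀, U v * (∑ w ∈ Pat Q with red Q₀ w = v, |T (ind Q w) x|) ≤
        ∑ v ∈ Pat Q₀, (U v * |T (ind Q₀ v) x₀| +
          c * ((∑ w ∈ Pat Q with red Q₀ w = v, |T (ind Q w) x|) -
            |T (ind Q₀ v) x₀|)) := by
      refine Finset.sum_le_sum fun v hv => ?_
      have h10 := h7 v hv
      have h11 := hUc v hv
      nlinarith
    rw [Finset.sum_add_distrib, ← Finset.mul_sum, Finset.sum_sub_distrib, h6] at h9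
    have h12 : Np T Q x - ∑ v ∈ Pat Q₀, |T (ind Q₀ v) x₀| ≤ δ := by
      have : Np T Q₀ x₀ = ∑ v ∈ Pat Q₀, |T (ind Q₀ v) x₀| := rfl
      linarith
    have h13 := mul_le_mul_of_nonneg_left h12 hc
    linarith
  have h14 : T (f - f') x = ρ - T f' x := by
    rw [map_sub, ContinuousMap.sub_apply, hTf]
  rw [h14, abs_le] at h2
  linarith [h2.2]

/-- No operator of `C(B(Γ))` which fixes the functions `min |x_γ| c` factors through
`C(∏ j, A(Λ j))`. -/
theorem no_compl' [Uncountable Γ] (S : C(Ball Γ, ℝ) →L[ℝ] C((∀ j, OnePoint (Λ j)), ℝ))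
    (T : C((∀ j, OnePoint (Λ j)), ℝ) →L[ℝ] C(Ball Γ, ℝ))
    (hTS : ∀ (c : ℝ) (γ : Γ), T (S (uf c γ)) = uf c γ) : False := by
  classical
  set KT := ‖T‖ + 1 with hKTdef
  set KS := ‖S‖ + 1 with hKSdef
  have hT0 : 0 ≤ ‖T‖ := T.opNorm_nonneg
  have hS0 : 0 ≤ ‖S‖ := S.opNorm_nonneg
  have hKT : 0 < KT := by linarith
  have hKS : 0 < KS := by linarith
  set δ := 1 / (4 * KS) with hδdef
  have hδ : 0 < δ := by positivity
  obtain ⟨P1, x0, F0, hx0F, hx0s, hmax⟩ := exists_near_max T hδ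
  set ρ := 1 - ∑ γ ∈ F0, |x0.1 γ| with hρdef
  have hρ : 0 < ρ := by linarith
  set θ := ρ / (16 * KT) with hθdef
  have hθ : 0 < θ := by positivity
  have hn : ∀ m : ℕ, ∃ n : ℕ, 0 < n ∧ 2 * ‖S‖ * ρ * m ≤ θ * n := by
    intro m
    obtain ⟨n, hn⟩ := exists_nat_gt (2 * ‖S‖ * ρ * m / θ)
    rw [div_lt_iff₀ hθ] at hn
    refine ⟨n + 1, Nat.succ_pos n, ?_⟩
    push_cast
    nlinarith
  choose n hn0 hn using hn
  have hd : ∀ m : ℕ, Nonempty (NFA (fun γ => S (uf (ρ / n m) γ)) (θ / n m)) := fun m =>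
    exists_NFA _ (div_pos hθ (by exact_mod_cast hn0 m))
  let d := fun m => Classical.choice (hd m)
  let Ms : ℕ → ℕ := fun l => Nat.rec 0 (fun _ m => m + (d m).R.card) l
  have hMs : ∀ l, Ms (l + 1) = Ms l + (d (Ms l)).R.card := fun l => rfl
  -- the roots of the earlier levels
  let E : ℕ → Finset (XX J Λ) := fun l => (Finset.range l).biUnion fun l' => (d (Ms l')).R
  have hEcard : ∀ l, (E l).card ≤ Ms l := by
    intro l
    induction l with
    | zero => simp [E]
    | succ l ih =>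
      have h1 : E (l + 1) = (d (Ms l)).R ∪ E l := by
        simp only [E]
        rw [Finset.range_add_one, Finset.biUnion_insert]
      rw [h1, hMs]
      have := Finset.card_union_le (d (Ms l)).R (E l)
      omega
  obtain ⟨L, hL⟩ := exists_nat_gt (8 * KT * KS / (3 * ρ))
  have hL0 : (0 : ℝ) < L := lt_trans (by positivity) hL
  let P0 : Finset (XX J Λ) := P1 ∪ (Finset.range L).biUnion fun l => (d (Ms l)).R
  have hRP0 : ∀ l < L, (d (Ms l)).R ⊆ P0 := fun l hl =>
    (Finset.subset_biUnion_of_mem (fun l => (d (Ms l)).R) (Finset.mem_range.mpr hl)).trans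
      Finset.subset_union_right
  let N : ℕ → ℕ := fun l => n (Ms l)
  have hN0 : ∀ l, (0 : ℝ) < N l := fun l => by exact_mod_cast hn0 (Ms l)
  let K := (Finset.range L).sup N
  have hK : ∀ l < L, N l ≤ K := fun l hl => Finset.le_sup (f := N) (Finset.mem_range.mpr hl)
  choose Qv hQvc hQv using fun v => exists_countable_support (T (ind P0 v))
  let Q0 : Set Γ := (F0 : Set Γ) ∪ ⋃ v ∈ (Pat P0 : Set (∀ j, OnePoint (Λ j))), Qv v
  have hQ0 : Q0.Countable := (Finset.countable_toSet _).union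
    ((Pat P0).countable_toSet.biUnion fun v _ => hQvc v)
  obtain ⟨s, hs1, hs2⟩ := greedyX (ι := ℕ × ℕ) (fun a => (d (Ms a.1)).I) (fun a => (d (Ms a.1)).P)
    (fun a => (d (Ms a.1)).free) hQ0 P0.countable_toSet (Finset.range L ×ˢ Finset.range K)
  have hmemE : ∀ l < L, ∀ j < N l, (l, j) ∈ Finset.range L ×ˢ Finset.range K := fun l hl j hj =>
    Finset.mem_product.mpr ⟨Finset.mem_range.mpr hl, Finset.mem_range.mpr (hj.trans_le (hK l hl))⟩
  have hsI : ∀ l < L, ∀ j < N l, s (l, j) ∈ (d (Ms l)).I := fun l hl j hj =>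
    (hs1 _ (hmemE l hl j hj)).1
  have hsQ : ∀ l < L, ∀ j < N l, s (l, j) ∉ Q0 := fun l hl j hj =>
    (hs1 _ (hmemE l hl j hj)).2.1
  have hsP : ∀ l < L, ∀ j < N l, ∀ i ∈ (d (Ms l)).P (s (l, j)), i ∉ P0 := fun l hl j hj i hi hi' =>
    (hs1 _ (hmemE l hl j hj)).2.2 i hi (Finset.mem_coe.mpr hi')
  have hsne : ∀ l < L, ∀ j < N l, ∀ l' < L, ∀ j' < N l', (l, j) ≠ (l', j') →
      s (l, j) ≠ s (l', j') ∧
        Disjoint ((d (Ms l)).P (s (l, j))) ((d (Ms l')).P (s (l', j'))) :=
    fun l hl j hj l' hl' j' hj' hne => hs2 _ (hmemE l hl j hj) _ (hmemE l' hl' j' hj') hne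
  let D : ℕ → Finset Γ := fun l => (Finset.range (N l)).image fun j => s (l, j)
  have hsinj : ∀ l < L, Set.InjOn (fun j => s (l, j)) (Finset.range (N l)) := by
    intro l hl j hj j' hj' h
    by_contra hne
    exact (hsne l hl j (Finset.mem_range.mp hj) l hl j' (Finset.mem_range.mp hj')
      (fun h => hne (Prod.ext_iff.mp h).2)).1 h
  have hDQ : ∀ l < L, ∀ γ ∈ D l, γ ∉ Q0 := by
    intro l hl γ hγ
    obtain ⟨j, hj, rfl⟩ := Finset.mem_image.mp hγ
    exact hsQ l hl j (Finset.mem_range.mp hj)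
  have hDcard : ∀ l < L, (D l).card = N l := by
    intro l hl
    rw [Finset.card_image_of_injOn (hsinj l hl), Finset.card_range]
  have hDdisj : Set.PairwiseDisjoint (↑(Finset.range L) : Set ℕ) D := by
    intro l hl l' hl' hne
    have hlL : l < L := by simpa using hl
    have hlL' : l' < L := by simpa using hl'
    rw [Function.onFun, Finset.disjoint_left]
    intro γ hγ hγ'
    obtain ⟨j, hj, rfl⟩ := Finset.mem_image.mp hγ
    obtain ⟨j', hj', h⟩ := Finset.mem_image.mp hγ'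
    exact (hsne l hlL j (Finset.mem_range.mp hj) l' hlL' j' (Finset.mem_range.mp hj')
      (fun h => hne (Prod.ext_iff.mp h).1)).1 h.symm
  let e : ℕ → C(Ball Γ, ℝ) := fun l => ∑ j ∈ Finset.range (N l), uf (ρ / N l) (s (l, j))
  let f : ℕ → C((∀ j, OnePoint (Λ j)), ℝ) := fun l => S (e l)
  let Pl : ℕ → Finset (XX J Λ) := fun l =>
    P0 ∪ (Finset.range (N l)).biUnion fun j => (d (Ms l)).P (s (l, j))
  have hP0Pl : ∀ l, P0 ⊆ Pl l := fun l => Finset.subset_union_left
  have hfsum : ∀ l ξ, f l ξ = ∑ j ∈ Finset.range (N l), S (uf (ρ / N l) (s (l, j))) ξ := by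
    intro l ξ
    simp only [f, e]
    rw [map_sum, ContinuousMap.sum_apply]
  have hufn : ∀ l (γ : Γ), ‖uf (ρ / N l) γ‖ ≤ ρ / N l := by
    intro l γ
    have h0 : 0 ≤ ρ / N l := (div_pos hρ (hN0 l)).le
    refine (ContinuousMap.norm_le _ h0).mpr fun x => ?_
    rw [uf_apply, Real.norm_eq_abs, abs_of_nonneg (le_min (abs_nonneg _) h0)]
    exact min_le_right _ _
  have hSuf : ∀ l γ ξ, |S (uf (ρ / N l) γ) ξ| ≤ ‖S‖ * (ρ / N l) := fun l γ ξ =>
    abs_apply_le_norm S _ ξ (hufn l γ)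
  -- F4
  have hfb : ∀ l ξ, |f l ξ| ≤ KS * ρ := by
    intro l ξ
    rw [hfsum]
    calc |∑ j ∈ Finset.range (N l), S (uf (ρ / N l) (s (l, j))) ξ|
        ≤ ∑ j ∈ Finset.range (N l), |S (uf (ρ / N l) (s (l, j))) ξ| :=
          Finset.abs_sum_le_sum_abs _ _
      _ ≤ ∑ _j ∈ Finset.range (N l), ‖S‖ * (ρ / N l) :=
          Finset.sum_le_sum fun j _ => hSuf l _ ξ
      _ = ‖S‖ * ρ := by
          rw [Finset.sum_const, Finset.card_range, nsmul_eq_mul]
          have := (hN0 l).ne'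
          field_simp
      _ ≤ KS * ρ := mul_le_mul_of_nonneg_right (by linarith) hρ.le
  -- F5
  have hesum : ∀ x : Ball Γ, ∑ l ∈ Finset.range L, |e l x| ≤ 1 := by
    intro x
    calc ∑ l ∈ Finset.range L, |e l x| ≤ ∑ l ∈ Finset.range L, ∑ γ ∈ D l, |x.1 γ| := by
          refine Finset.sum_le_sum fun l hl => ?_
          have hlL := Finset.mem_range.mp hl
          simp only [e, D]
          rw [ContinuousMap.sum_apply, Finset.sum_image (hsinj l hlL)]
          refine (Finset.abs_sum_le_sum_abs _ _).trans (Finset.sum_le_sum fun j _ => ?_)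
          rw [uf_apply, abs_of_nonneg (le_min (abs_nonneg _) (div_pos hρ (hN0 l)).le)]
          exact min_le_left _ _
      _ = ∑ γ ∈ (Finset.range L).biUnion D, |x.1 γ| := (Finset.sum_biUnion hDdisj).symm
      _ ≤ 1 := x.2 _
  have hfL : ∀ ξ, ∑ l ∈ Finset.range L, |f l ξ| ≤ ‖S‖ := by
    intro ξ
    have := sum_abs_le_norm S (Finset.range L) e (c := 1) (fun r hr => by
      refine (ContinuousMap.norm_le _ zero_le_one).mpr fun x => ?_
      rw [ContinuousMap.sum_apply, Real.norm_eq_abs]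
      refine (Finset.abs_sum_le_sum_abs _ _).trans (le_trans ?_ (hesum x))
      refine Finset.sum_le_sum fun l _ => ?_
      rw [ContinuousMap.smul_apply, smul_eq_mul, abs_mul]
      exact mul_le_of_le_one_left (abs_nonneg _) (hr l)) ξ
    rwa [mul_one] at this
  -- F3
  have hfsupp : ∀ l < L, ∀ ξ ξ', red (Pl l) ξ = red (Pl l) ξ' → |f l ξ - f l ξ'| ≤ θ := by
    intro l hl ξ ξ' h
    rw [hfsum, hfsum, ← Finset.sum_sub_distrib]
    calc |∑ j ∈ Finset.range (N l), (S (uf (ρ / N l) (s (l, j))) ξ -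
          S (uf (ρ / N l) (s (l, j))) ξ')|
        ≤ ∑ j ∈ Finset.range (N l), |S (uf (ρ / N l) (s (l, j))) ξ -
          S (uf (ρ / N l) (s (l, j))) ξ'| := Finset.abs_sum_le_sum_abs _ _
      _ ≤ ∑ _j ∈ Finset.range (N l), θ / N l := by
          refine Finset.sum_le_sum fun j hj => ?_
          refine (d (Ms l)).supp _ (hsI l hl j (Finset.mem_range.mp hj)) (Pl l) ?_ ξ ξ' h
          rintro k i (hi | hi)
          · exact hP0Pl l (hRP0 l hl hi)
          · exact Finset.mem_union_right _ (Finset.mem_biUnion.mpr ⟨j, hj, hi⟩)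
      _ = θ := by
          rw [Finset.sum_const, Finset.card_range, nsmul_eq_mul]
          have := (hN0 l).ne'
          field_simp
  -- the points
  have hx0D : ∀ l < L, ∀ γ ∈ D l, x0.1 γ = 0 := by
    intro l hl γ hγ
    refine hx0F γ fun h => hDQ l hl γ hγ (Or.inl ?_)
    exact Finset.mem_coe.mpr h
  have hx0sum : ∀ F : Finset Γ, ∑ γ ∈ F, |x0.1 γ| ≤ 1 - ρ := by
    intro F
    have h1 : ∑ γ ∈ F, |x0.1 γ| ≤ ∑ γ ∈ F ∪ F0, |x0.1 γ| :=
      Finset.sum_le_sum_of_subset_of_nonneg Finset.subset_union_left fun _ _ _ => abs_nonneg _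
    have h2 : ∑ γ ∈ F0, |x0.1 γ| = ∑ γ ∈ F ∪ F0, |x0.1 γ| := by
      refine Finset.sum_subset Finset.subset_union_right fun γ _ hγ => ?_
      rw [hx0F γ hγ, abs_zero]
    rw [hρdef]
    linarith
  have hxmem : ∀ l, l < L → (fun γ => if γ ∈ D l then ρ / N l else x0.1 γ) ∈ Ball Γ := by
    intro l hl F
    have h1 : ∀ γ ∈ F, |if γ ∈ D l then ρ / N l else x0.1 γ| =
        (if γ ∈ D l then ρ / N l else 0) + |x0.1 γ| := by
      intro γ _
      split_ifs with h
      · rw [hx0D l hl γ h, abs_zero, add_zero, abs_of_nonneg (div_pos hρ (hN0 l)).le]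
      · rw [zero_add]
    rw [Finset.sum_congr rfl h1, Finset.sum_add_distrib]
    have h2 : ∑ γ ∈ F, (if γ ∈ D l then ρ / N l else 0) ≤ ρ := by
      rw [← Finset.sum_filter]
      calc ∑ γ ∈ F with γ ∈ D l, ρ / N l ≤ ∑ γ ∈ D l, ρ / N l := by
            refine Finset.sum_le_sum_of_subset_of_nonneg ?_ fun _ _ _ =>
              (div_pos hρ (hN0 l)).le
            intro γ hγ
            exact (Finset.mem_filter.mp hγ).2
        _ = ρ := by
            rw [Finset.sum_const, hDcard l hl, nsmul_eq_mul]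
            have := (hN0 l).ne'
            field_simp
    have h3 := hx0sum F
    linarith
  -- the maximal patterns
  have hW : ∀ l v, ∃ w, v ∈ Pat P0 → (w ∈ Pat (Pl l) ∧ red P0 w = v ∧
      ∀ w' ∈ Pat (Pl l), red P0 w' = v → |f l w'| ≤ |f l w|) := by
    intro l v
    by_cases hv : v ∈ Pat P0
    · have hne : ((Pat (Pl l)).filter fun w => red P0 w = v).Nonempty := by
        refine ⟨red (Pl l) v, ?_⟩
        rw [Finset.mem_filter]
        refine ⟨red_mem _ _, ?_⟩
        rw [red_red (hP0Pl l)]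
        exact mem_Pat.mp hv
      obtain ⟨w, hw, hwm⟩ := Finset.exists_max_image _ (fun w => |f l w|) hne
      rw [Finset.mem_filter] at hw
      exact ⟨w, fun _ => ⟨hw.1, hw.2, fun w' h1 h2 => hwm w' (Finset.mem_filter.mpr ⟨h1, h2⟩)⟩⟩
    · exact ⟨v, fun h => absurd h hv⟩
  choose W hW using hW
  have hkey : ∀ l < L, ρ / 2 ≤ ∑ v ∈ Pat P0, |f l (W l v)| * |T (ind P0 v) x0| := by
    intro l hl
    have h1 := key T (hP0Pl l) (x₀ := x0) (x := ⟨_, hxmem l hl⟩) (δ := δ) (θ := θ)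
      (c := KS * ρ) (ρ := ρ) (f l)
      (fun v hv => by
        refine hQv v _ _ fun γ hγ => ?_
        have h2 : γ ∉ D l := fun h => hDQ l hl γ h
          (Or.inr (Set.mem_iUnion₂.mpr ⟨v, Finset.mem_coe.mpr hv, hγ⟩))
        simp only [if_neg h2])
      (fun ξ => hfsupp l hl ξ _ (red_red (Finset.Subset.refl _) ξ).symm)
      (by
        have hTSe : T (f l) = e l := by
          simp only [f, e]
          rw [map_sum, map_sum]
          exact Finset.sum_congr rfl fun j _ => hTS _ _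
        rw [hTSe]
        simp only [e]
        rw [ContinuousMap.sum_apply]
        calc ∑ j ∈ Finset.range (N l), uf (ρ / N l) (s (l, j)) ⟨_, hxmem l hl⟩
            = ∑ _j ∈ Finset.range (N l), ρ / N l := by
              refine Finset.sum_congr rfl fun j hj => ?_
              have h2 : s (l, j) ∈ D l := Finset.mem_image_of_mem (fun j => s (l, j)) hj
              rw [uf_apply]
              simp only [if_pos h2]
              rw [abs_of_nonneg (div_pos hρ (hN0 l)).le, min_self]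
          _ = ρ := by
              rw [Finset.sum_const, Finset.card_range, nsmul_eq_mul]
              have := (hN0 l).ne'
              field_simp)
      (fun v => |f l (W l v)|)
      (fun w hw => (hW l _ (red_mem P0 w)).2.2 w hw rfl)
      (fun v _ => hfb l _)
      (by positivity)
      (by
        refine (hmax _ _).trans ?_
        have := Np_mono T (Q := P1) (Q' := P0) Finset.subset_union_left x0
        linarith)
    have h2 : ‖T‖ * θ ≤ ρ / 16 := by
      calc ‖T‖ * θ ≤ KT * θ := mul_le_mul_of_nonneg_right (by linarith) hθ.le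
        _ = ρ / 16 := by rw [hθdef]; field_simp
    have h3 : KS * ρ * δ = ρ / 4 := by rw [hδdef]; field_simp
    linarith
  -- choose v
  have hv : ∃ v ∈ Pat P0, L * ρ / (2 * KT) ≤ ∑ l ∈ Finset.range L, |f l (W l v)| := by
    by_contra hcon
    push Not at hcon
    have h1 : L * (ρ / 2) ≤ ∑ l ∈ Finset.range L, ∑ v ∈ Pat P0,
        |f l (W l v)| * |T (ind P0 v) x0| := by
      calc (L : ℝ) * (ρ / 2) = ∑ _l ∈ Finset.range L, ρ / 2 := by
            rw [Finset.sum_const, Finset.card_range, nsmul_eq_mul]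
        _ ≤ _ := Finset.sum_le_sum fun l hl => hkey l (Finset.mem_range.mp hl)
    rw [Finset.sum_comm] at h1
    have h2 : ∑ v ∈ Pat P0, ∑ l ∈ Finset.range L, |f l (W l v)| * |T (ind P0 v) x0| ≤
        L * ρ / (2 * KT) * ‖T‖ := by
      calc ∑ v ∈ Pat P0, ∑ l ∈ Finset.range L, |f l (W l v)| * |T (ind P0 v) x0|
          ≤ ∑ v ∈ Pat P0, L * ρ / (2 * KT) * |T (ind P0 v) x0| := by
            refine Finset.sum_le_sum fun v hv => ?_
            rw [← Finset.sum_mul]
            exact mul_le_mul_of_nonneg_right (hcon v hv).le (abs_nonneg _)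
        _ = L * ρ / (2 * KT) * Np T P0 x0 := by rw [← Finset.mul_sum]; rfl
        _ ≤ L * ρ / (2 * KT) * ‖T‖ :=
            mul_le_mul_of_nonneg_left (Np_le T _ _) (by positivity)
    have h3 : L * ρ / (2 * KT) * ‖T‖ < L * (ρ / 2) := by
      calc L * ρ / (2 * KT) * ‖T‖ < L * ρ / (2 * KT) * KT :=
            mul_lt_mul_of_pos_left (by linarith) (by positivity)
        _ = L * (ρ / 2) := by field_simp
    linarith
  obtain ⟨v, hvP, hv⟩ := hv
  -- the slots of a level
  let SL : ℕ → J → Prop := fun l k => (Sum.inr k : XX J Λ) ∈ (d (Ms l)).R ∨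
    ∃ j < N l, (Sum.inr k : XX J Λ) ∈ (d (Ms l)).P (s (l, j))
  -- the merged point
  let ξ : ∀ j, OnePoint (Λ j) := fun k =>
    if h : ∃ l, l < L ∧ SL l k then W (Nat.find h) v k else OnePoint.infty
  have hmerge : ∀ l < L, |f l (W l v)| ≤ |f l ξ| + 2 * θ := by
    intro l hl
    obtain ⟨hw1, hw2, -⟩ := hW l v hvP
    -- disturbed indices
    let Dist : Finset ℕ := (Finset.range (N l)).filter fun j =>
      ∃ k, (Sum.inr k : XX J Λ) ∈ E l ∧ ∃ i : Λ k, lb k i ∈ (d (Ms l)).P (s (l, j)) ∧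
        W l v k = (i : OnePoint (Λ k))
    have hcard : Dist.card ≤ Ms l := by
      have hsub : Dist ⊆ (E l).biUnion fun x => (Finset.range (N l)).filter fun j =>
          ∃ k, (Sum.inr k : XX J Λ) = x ∧ ∃ i : Λ k, lb k i ∈ (d (Ms l)).P (s (l, j)) ∧
            W l v k = (i : OnePoint (Λ k)) := by
        intro j hj
        obtain ⟨hj1, k, hk, hk2⟩ := Finset.mem_filter.mp hj
        exact Finset.mem_biUnion.mpr ⟨_, hk, Finset.mem_filter.mpr ⟨hj1, k, rfl, hk2⟩⟩
      refine (Finset.card_le_card hsub).trans ?_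
      refine (Finset.card_biUnion_le_card_mul _ _ 1 fun x _ => ?_).trans
        (by rw [mul_one]; exact hEcard l)
      refine Finset.card_le_one.mpr fun j hj j' hj' => ?_
      obtain ⟨hj1, k, hkx, i, hi, hki⟩ := Finset.mem_filter.mp hj
      obtain ⟨hj1', k', hkx', i', hi', hki'⟩ := Finset.mem_filter.mp hj'
      have hkk : k = k' := Sum.inr_injective (hkx.trans hkx'.symm)
      subst hkk
      have hii : i = i' := OnePoint.coe_injective (hki.symm.trans hki')
      by_contra hne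
      have := (hsne l hl j (Finset.mem_range.mp hj1) l hl j' (Finset.mem_range.mp hj1')
        (fun h => hne (Prod.ext_iff.mp h).2)).2
      rw [Finset.disjoint_left] at this
      exact this hi (hii ▸ hi')
    have hgood : ∀ j ∈ Finset.range (N l), j ∉ Dist →
        |S (uf (ρ / N l) (s (l, j))) ξ - S (uf (ρ / N l) (s (l, j))) (W l v)| ≤ θ / N l := by
      intro j hj hjD
      have hjN := Finset.mem_range.mp hj
      refine (d (Ms l)).supp _ (hsI l hl j hjN) ((d (Ms l)).R ∪ (d (Ms l)).P (s (l, j)))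
        (fun k i hi => Finset.mem_union.mpr hi) ξ (W l v) ?_
      rw [red_eq_iff]
      intro k i hi
      have hi' := Finset.mem_union.mp hi
      have hslot := (d (Ms l)).slot _ (hsI l hl j hjN) k i hi'
      have hSLl : SL l k := hslot.imp id fun h => ⟨j, hjN, h⟩
      have hex : ∃ l, l < L ∧ SL l k := ⟨l, hl, hSLl⟩
      have hξk : ξ k = W (Nat.find hex) v k := dif_pos hex
      have hfind1 : Nat.find hex ≤ l := Nat.find_min' hex ⟨hl, hSLl⟩
      have hfind2 := Nat.find_spec hex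
      rw [hξk]
      rcases hfind1.eq_or_lt with heq | hlt
      · rw [heq]
      · obtain ⟨hl0L, hSL0⟩ := hfind2
        obtain ⟨hw1', hw2', -⟩ := hW (Nat.find hex) v hvP
        by_cases hiP0 : lb k i ∈ P0
        · have h1 : red P0 (W (Nat.find hex) v) = red P0 (W l v) := by rw [hw2, hw2']
          exact red_eq_iff.mp h1 k i hiP0
        · have hiP : lb k i ∈ (d (Ms l)).P (s (l, j)) := by
            rcases hi' with h | h
            · exact absurd (hRP0 l hl h) hiP0
            · exact h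
          -- the slot `k` is a root slot of the earlier level
          have hkR : (Sum.inr k : XX J Λ) ∈ (d (Ms (Nat.find hex))).R := by
            rcases hSL0 with h | ⟨j', hj', h⟩
            · exact h
            · exfalso
              rcases hslot with h2 | h2
              · exact hsP _ hl0L j' hj' _ h (hRP0 l hl h2)
              · have h3 := (hsne _ hl0L j' hj' l hl j hjN
                  (fun h => hlt.ne (Prod.ext_iff.mp h).1)).2
                rw [Finset.disjoint_left] at h3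
                exact h3 h h2
          have hkE : (Sum.inr k : XX J Λ) ∈ E l :=
            Finset.mem_biUnion.mpr ⟨_, Finset.mem_range.mpr hlt, hkR⟩
          constructor
          · intro h
            exfalso
            have h1 : lb k i ∈ Pl (Nat.find hex) := mem_of_mem_Pat hw1' h
            rcases Finset.mem_union.mp h1 with h2 | h2
            · exact hiP0 h2
            · obtain ⟨j', hj', hij'⟩ := Finset.mem_biUnion.mp h2
              have h3 := (hsne l hl j hjN (Nat.find hex) hl0L j' (Finset.mem_range.mp hj')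
                (fun h => hlt.ne' (Prod.ext_iff.mp h).1)).2
              rw [Finset.disjoint_left] at h3
              exact h3 hiP hij'
          · intro h
            exfalso
            exact hjD (Finset.mem_filter.mpr ⟨hj, k, hkE, i, hiP, h⟩)
    have hdiff : |f l ξ - f l (W l v)| ≤ 2 * θ := by
      rw [hfsum, hfsum, ← Finset.sum_sub_distrib]
      calc |∑ j ∈ Finset.range (N l), (S (uf (ρ / N l) (s (l, j))) ξ -
            S (uf (ρ / N l) (s (l, j))) (W l v))|
          ≤ ∑ j ∈ Finset.range (N l), |S (uf (ρ / N l) (s (l, j))) ξ -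
            S (uf (ρ / N l) (s (l, j))) (W l v)| := Finset.abs_sum_le_sum_abs _ _
        _ ≤ ∑ j ∈ Finset.range (N l), (θ / N l + if j ∈ Dist then 2 * (‖S‖ * (ρ / N l)) else 0) := by
            refine Finset.sum_le_sum fun j hj => ?_
            split_ifs with h
            · have h1 := hSuf l (s (l, j)) ξ
              have h2 := hSuf l (s (l, j)) (W l v)
              have h3 := abs_sub (S (uf (ρ / N l) (s (l, j))) ξ)
                (S (uf (ρ / N l) (s (l, j))) (W l v))
              have h4 : 0 ≤ θ / N l := (div_pos hθ (hN0 l)).le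
              linarith
            · rw [add_zero]
              exact hgood j hj h
        _ = θ + Dist.card * (2 * (‖S‖ * (ρ / N l))) := by
            rw [Finset.sum_add_distrib, Finset.sum_const, Finset.card_range, nsmul_eq_mul,
              ← Finset.sum_filter, Finset.sum_const, nsmul_eq_mul]
            congr 1
            · have := (hN0 l).ne'
              field_simp
            · congr 3
              ext j
              simp only [Dist, Finset.mem_filter]
              tauto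
        _ ≤ θ + θ := by
            have h1 : (Dist.card : ℝ) ≤ Ms l := by exact_mod_cast hcard
            have h2 : (Dist.card : ℝ) * (2 * (‖S‖ * (ρ / N l))) ≤
                Ms l * (2 * (‖S‖ * (ρ / N l))) := mul_le_mul_of_nonneg_right h1 (by positivity)
            have h3 : Ms l * (2 * (‖S‖ * (ρ / N l))) ≤ θ := by
              have h4 := hn (Ms l)
              have h5 : Ms l * (2 * (‖S‖ * (ρ / N l))) = 2 * ‖S‖ * ρ * Ms l / N l := by ring
              rw [h5, div_le_iff₀ (hN0 l)]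
              exact h4
            linarith
        _ = 2 * θ := by ring
    have h1 := abs_sub_abs_le_abs_sub (f l (W l v)) (f l ξ)
    rw [abs_sub_comm] at hdiff
    linarith
  -- conclusion
  have h1 := hfL ξ
  have h2 : L * ρ / (2 * KT) ≤ ∑ l ∈ Finset.range L, (|f l ξ| + 2 * θ) :=
    hv.trans (Finset.sum_le_sum fun l hl => hmerge l (Finset.mem_range.mp hl))
  rw [Finset.sum_add_distrib, Finset.sum_const, Finset.card_range, nsmul_eq_mul] at h2
  have h3 : (L : ℝ) * (2 * θ) = L * ρ / (8 * KT) := by rw [hθdef]; field_simp; ring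
  have h4 : L * ρ / (2 * KT) - L * ρ / (8 * KT) = 3 * (L * ρ) / (8 * KT) := by field_simp; ring
  have h5 : KS < 3 * (L * ρ) / (8 * KT) := by
    rw [lt_div_iff₀ (by positivity)]
    rw [div_lt_iff₀ (by positivity)] at hL
    linarith
  linarith

end main

end Pool.Agent.Y388.BK
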